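import Pool.Agent.W8.LS.Stm

/-! Project LS (helper8): the comparison map is the Joukowski map outside a disc. -/

set_option autoImplicit false

namespace Pool.Agent.W287.LS

open Pool.Agent.W8.LS

theorem GabJou_proof : GabJou := by
  intro α β hR ζ hζ
  obtain ⟨_, _, hα, hβ, _, _, hα16, hβ16⟩ := hR
  have hs16 : (16 : ℝ) ≤ ‖ζ‖ ^ 2 := by nlinarith
  have hs0 : (0 : ℝ) < ‖ζ‖ ^ 2 := by linarith
  have hN : Complex.normSq ζ = ‖ζ‖ ^ 2 := Complex.normSq_eq_norm_sq ζ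
  have ha := hα16 _ hs16
  have hb := hβ16 _ hs16
  have ha0 := hα _ hs0.le
  have hb0 := hβ _ hs0.le
  unfold Gab
  generalize hs : ‖ζ‖ ^ 2 = s at hs16 hs0 hN ha hb ha0 hb0 ⊢
  have hinv : s⁻¹ ≤ 1 := by
    rw [inv_le_one₀ hs0]
    linarith
  have hinv0 : 0 < s⁻¹ := inv_pos.2 hs0
  have hss : s * s⁻¹ = 1 := mul_inv_cancel₀ hs0.ne'
  have hae : α s = (1 + s⁻¹) / 2 := by
    have h1 : (α s) ^ 2 = ((1 + s⁻¹) / 2) ^ 2 := by
      apply mul_left_cancel₀ hs0.ne'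
      rw [ha]
      have h2 : s * ((1 + s⁻¹) / 2) ^ 2 = (s + 2 * (s * s⁻¹) + (s * s⁻¹) * s⁻¹) / 4 := by ring
      rw [h2, hss]
      ring
    exact (pow_left_inj₀ ha0.le (by positivity) two_ne_zero).1 h1
  have hbe : β s = (1 - s⁻¹) / 2 := by
    have h1 : (β s) ^ 2 = ((1 - s⁻¹) / 2) ^ 2 := by
      apply mul_left_cancel₀ hs0.ne'
      rw [hb]
      have h2 : s * ((1 - s⁻¹) / 2) ^ 2 = (s - 2 * (s * s⁻¹) + (s * s⁻¹) * s⁻¹) / 4 := by ring
      rw [h2, hss]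
      ring
    exact (pow_left_inj₀ hb0.le (by linarith) two_ne_zero).1 h1
  have hre : ((ζ + ζ⁻¹) / 2).re = (ζ.re + ζ.re / s) / 2 := by
    have h2 : ((ζ + ζ⁻¹) / 2).re = (ζ + ζ⁻¹).re / 2 := by
      rw [show (2 : ℂ) = ((2 : ℝ) : ℂ) by norm_num, Complex.div_ofReal_re]
    rw [h2, Complex.add_re, Complex.inv_re, hN]
  have him : ((ζ + ζ⁻¹) / 2).im = (ζ.im + -ζ.im / s) / 2 := by
    have h2 : ((ζ + ζ⁻¹) / 2).im = (ζ + ζ⁻¹).im / 2 := by
      rw [show (2 : ℂ) = ((2 : ℝ) : ℂ) by norm_num, Complex.div_ofReal_im]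
    rw [h2, Complex.add_im, Complex.inv_im, hN]
  apply Complex.ext
  · rw [hre]
    simp only [Complex.add_re, Complex.mul_re, Complex.ofReal_re, Complex.ofReal_im, Complex.I_re,
      Complex.I_im]
    rw [hae]
    ring
  · rw [him]
    simp only [Complex.add_im, Complex.mul_im, Complex.ofReal_re, Complex.ofReal_im, Complex.I_re,
      Complex.I_im]
    rw [hbe]
    ring

end Pool.Agent.W287.LS
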